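import Pool.Agent.H73.GG.Main

/-!
# MP_cfee4b_al, Q1: the geodesic growth of `vE` with respect to `S = {a, b, (ab)⁻¹, t}` is polynomial

`GG73.vE` is the virtually Engel group of the problem (file `Pool/Agent/H73/GG/Defs.lean`): `Ebar` is
the real Engel group, `E` its subgroup generated by `a = ((1,1),0,0)` and `b = ((1,-1),0,0)`, and `vE`
is the semidirect product of `E` with the group of order two acting through `σ`. The set `S` generates
`vE` as a monoid, and for suitable constants `C, d` the number of geodesic words of length at most `n`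
over `S` is at most `C * n ^ d` for all `n ≥ 1`.
-/

namespace Pool.Agent.Results.MP_cfee4b_al.PolynomialGrowth

open GG73

theorem result :
    Submonoid.closure S = ⊤ ∧
      ∃ C d : ℕ, ∀ n : ℕ, 1 ≤ n →
        (geodesicWords S n).Finite ∧ geodesicGrowth S n ≤ C * n ^ d := by
  refine ⟨closure_S, ?_⟩
  obtain ⟨D, hD⟩ := growth_bound
  refine ⟨8 ^ (D + 1), D + 1, fun n hn => ⟨(hD n).1, (hD n).2.trans ?_⟩⟩
  rw [← mul_pow]
  exact Nat.pow_le_pow_left (by omega) _

end Pool.Agent.Results.MP_cfee4b_al.PolynomialGrowth
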